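import Mathlib
import Pool.Agent.H.MP_0d317a_lc.C

set_option autoImplicit false

namespace Pool.Agent.H.MP_8dd142_lc

open Set Filter Function Cardinal Pool.Agent.H.MP_77d395_lc Pool.Agent.H.MP_6e75db_lc
open Pool.Agent.H.MP_522602_lc (p fb)
open Pool.Agent.H.MP_0d317a_lc hiding Cm Pr P cm cr cp g3 g4 t1 g5 td g6 tp fin pf dp ex main

section
variable (g : I → Dt)

def Xi (a : I) (A : Set (I × Bool)) : Set ℕ := {m | ∀ b < a, (b, true) ∈ A → m ∈ (g b).T}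

def Cm (a : I) (x : Dt) : Prop :=
  (∀ j, (a, true) ∈ x.s j ∧ ∀ y ∈ x.s j, y.1 ≤ a) ∧ (∀ j, ∀ c < a, Tc g j c (x.s j)) ∧
    (∀ F, FF (Iio a) F → ∀ j, Con (x.s j ∪ Sg g j F) → (Cb g j F ∩ x.G).Infinite) ∧
      x.T.Infinite ∧ (∀ j, (x.T \ Xi g a (x.s j)).Finite) ∧ ∀ b < a, (x.T \ (g b).T).Finite

def Pr (a : I) (x : Dt) : Prop := Cm g a x ∧
  ∀ u ⊆ Iio a, u.Finite → ∃ᶠ j in atTop, Con (x.s j ∪ Sg g j (u ×ˢ {true}))

def P (a : I) (x : Dt) : Prop := Cm g a x ∧ (∃ᶠ j in atTop, Con (x.s j)) ∧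
  (∀ b < a, ((g b).T \ x.T).Infinite ∧ ∀ᶠ j in atTop,
    (Con (x.s j) → (g b).s j ⊆ x.s j) ∧ (fb x.G j \ (g b).G).Finite) ∧
  ∀ F, FF (Iio a) F → ∀ j, Con (Sg g j F) → (Cb g j F \ x.G).Infinite

end

variable {g h : I → Dt} {a c δ : I} {x : Dt} {j : ℕ} {F : Set (I × Bool)} {A B : Set (I × Bool)}

theorem cm (e : ∀ b < a, g b = h b) (s : Cm g a x) : Cm h a x :=
  ⟨s.1, fun j c l => (s.2.1 j c l).imp fun _ r => ⟨r.1, r.2.trans (e1 e ⟨r.1.1, fun u t =>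
    (r.1.2 u t).trans_lt l⟩)⟩, fun F f j => e1 e f ▸ e2 e f ▸ s.2.2.1 F f j, s.2.2.2.1,
      fun j => (s.2.2.2.2.1 j).subset fun _ r => ⟨r.1, fun t => r.2 fun b l w => e b l ▸ t b l w⟩,
        fun b l => e b l ▸ s.2.2.2.2.2 b l⟩

theorem cr (e : ∀ b < a, g b = h b) (s : Pr g a x) : Pr h a x :=
  ⟨cm e s.1, fun u l f => (s.2 u l f).mono fun _ =>
    e1 e ⟨f.prod (finite_singleton true), fun _ r => l r.1⟩ ▸ id⟩

theorem cp (e : ∀ b < a, g b = h b) (s : P g a x) : P h a x :=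
  ⟨cm e s.1, s.2.1, fun b l => e b l ▸ s.2.2.1 b l, fun F f j => e1 e f ▸ e2 e f ▸ s.2.2.2 F f j⟩

section
variable (s : ∀ b < δ, P g b (g b))
include s

theorem g3 (f : FF (Iio δ) F) : ∀ y ∈ Sg g j F, ∃ u ∈ F, y.1 ≤ u.1 := fun y r =>
  (ss r).elim (fun ⟨b, t, w⟩ => ⟨_, t, ((s b (f.2 _ t)).1.1 j).2 y w⟩) fun t => ⟨y, t.1, le_rfl⟩

theorem g4 (f : FF (Iio δ) F) (k : Con (Sg g j F)) : (Cb g j F).Infinite := by
  rcases F.eq_empty_or_nonempty with rfl | ⟨u, r⟩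
  · exact ic.mono fun n t => ⟨t, by simp⟩
  obtain ⟨a, l, -, t⟩ := uf f (f.2 u r)
  have z : ∀ {n}, n ∈ Cb g j {u ∈ F | u.1 < a} → (∀ b, (a, b) ∈ F → (n ∈ (g a).G ↔ b = true)) →
      n ∈ Cb g j F := fun y w => ⟨y.1, fun u r => (t u r).eq_or_lt.elim
        (fun e => by subst e; exact w _ r) fun e => y.2 u ⟨r, e⟩⟩
  by_cases w : (a, true) ∈ F
  · exact ((s a l).1.2.2.1 _ (fl f.1) j (mc (union_subset (st w) (sm fun _ r => r.1)) k)).mono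
      fun n y => z y.1 fun b v => by
        cases b
        · exact (k a (st w ((s a l).1.1 j).1) (sf v)).elim
        exact iff_of_true y.2 rfl
  exact ((s a l).2.2.2 _ (fl f.1) j (mc (sm fun _ r => r.1) k)).mono fun n y => z y.1
    fun b v => iff_of_false y.2 fun e => w (e ▸ v)

theorem t1 (l : a < δ) : Tc g j c ((g a).s j) := (lt_or_ge c a).elim ((s a l).1.2.1 j c) fun k =>
  ⟨{(a, true)}, ⟨finite_singleton _, fun _ r => r ▸ k⟩, (inter_eq_left.2 fun y r =>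
    (((s a l).1.1 j).2 y r).trans k).trans (by simp [Sg])⟩

theorem g5 (f : FF (Iio δ) F) : Tc g j c (Sg g j F) := tb f.1 fun ⟨b, v⟩ r => by
  cases v
  · exact (lt_or_ge c b).elim (fun k => t0 fun _ e => e ▸ k) fun k => ⟨{(b, false)},
      ⟨finite_singleton _, fun _ r => r ▸ k⟩, (inter_eq_left.2 fun y r => by
        obtain rfl : y = _ := r; exact k).trans (by simp [Sg])⟩
  exact t1 s (f.2 _ r)

theorem td (l : a ≤ c) (k : c < δ) : ((g c).T \ (g a).T).Finite :=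
  l.eq_or_lt.elim (fun e => by simp [e]) fun l => (s c k).1.2.2.2.2.2 a l

theorem g6 {T : Set ℕ} (f : FF (Iio δ) F) (k : ∀ u ∈ F, (T \ (g u.1).T).Finite) :
    (T \ {m | ∀ b, (b, true) ∈ Sg g j F → m ∈ (g b).T}).Finite := by
  refine (f.1.biUnion fun u r => (k u r).union (ft (k u r) ((s _ (f.2 u r)).1.2.2.2.2.1 j))).subset
    fun m r => by_contra fun n => r.2 fun b w => ?_
  rcases ss w with ⟨d, v, y⟩ | v
  · rcases (((s d (f.2 _ v)).1.1 j).2 _ y).eq_or_lt with e | e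
    · exact by_contra fun t => n (mem_biUnion v (.inl ⟨r.1, fun w => t (by subst e; exact w)⟩))
    exact by_contra fun t => n (mem_biUnion v (.inr ⟨r.1, fun w => t (w b e y)⟩))
  exact absurd v.2 (by simp)

theorem mT {π : ℕ → Set (I × Bool)}
    (k : ∀ c < δ, ∀ n, {m ∈ (g c).T | ∀ j < n, m ∈ Xi g δ (π j)}.Infinite) : ∃ T : Set ℕ,
      T.Infinite ∧ (∀ j, (T \ Xi g δ (π j)).Finite) ∧ ∀ b < δ, (T \ (g b).T).Finite := by
  obtain ⟨e, he⟩ := (((cI δ).mono Iio_subset_Iic_self).insert δ).exists_eq_range (insert_nonempty _ _)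
  obtain ⟨T, T1, T2⟩ := pi (S := fun i => {m | (e i < δ → m ∈ (g (e i)).T) ∧ m ∈ Xi g δ (π i)})
    fun n => by
      by_cases v : ∃ c, c < δ
      swap
      · exact infinite_univ.mono fun m _ => mem_iInter₂.2 fun i _ => ⟨fun r => (v ⟨_, r⟩).elim,
          fun a r => (v ⟨_, r⟩).elim⟩
      obtain ⟨c, l, -, r⟩ := ub (((finite_Iic n).image e).inter_of_left _) inter_subset_right
        v.choose_spec
      refine ((k c l (n + 1)).sdiff ((finite_le_nat n).biUnion fun i t =>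
        show {m ∈ (g c).T | e i < δ ∧ m ∉ (g (e i)).T}.Finite from ?_)).mono
          fun m w => mem_iInter₂.2 fun i t => ⟨fun v => by_contra fun z => w.2 (mem_biUnion t
            ⟨w.1.1, v, z⟩), w.1.2 i (Nat.lt_succ_of_le t)⟩
      by_cases v : e i < δ
      · exact (td s (r _ ⟨⟨i, t, rfl⟩, v⟩) l).subset fun m w => ⟨w.1, w.2.2⟩
      simp [v]
  refine ⟨T, T1, fun j => (T2 j).subset fun m r => ⟨r.1, fun t => r.2 t.2⟩, fun b l => ?_⟩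
  obtain ⟨i, rfl⟩ := he.le (.inr l)
  exact (T2 i).subset fun m r => ⟨r.1, fun t => r.2 (t.1 l)⟩

theorem tp : ∃ T, Pr g δ ⟨Set.univ, T, fun _ => {(δ, true)}⟩ := by
  have z : ∀ {j F}, FF (Iio δ) F → Con (Sg g j F) → Con ({(δ, true)} ∪ Sg g j F) :=
    fun f k b r t => t.elim (by simp) fun t => r.elim (fun e => let ⟨u, v, w⟩ := g3 s f _ t
      (f.2 u v).not_ge ((Prod.mk.inj e).1 ▸ w)) (k b · t)
  obtain ⟨T, t⟩ := mT s (π := fun _ => {(δ, true)}) fun c l n => (s c l).1.2.2.2.1.mono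
    fun m r => ⟨r, fun j _ b v e => (v.ne (Prod.mk.inj e).1).elim⟩
  refine ⟨T, ⟨fun j => ⟨rfl, fun y r => r ▸ le_rfl⟩, fun j c l => t0 fun y r => r ▸ l, fun F f j k =>
    (g4 s f (mc subset_union_right k)).mono fun n r => ⟨r, trivial⟩, t⟩, fun u l f => ?_⟩
  rcases u.eq_empty_or_nonempty with rfl | ⟨c, r⟩
  · exact .of_forall fun j => z ⟨by simp, by simp⟩ (by simp [Sg, MP_0d317a_lc.Con])
  obtain ⟨a, k, -, t⟩ := ub f l (l r)
  refine ((s a k).2.1.and_eventually ((eventually_all_finite f).2 fun b w => show ∀ᶠ j in atTop,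
    Con ((g a).s j) → (g b).s j ⊆ (g a).s j from (t b w).eq_or_lt.elim (fun e => by simp [e])
      fun e => ((s a k).2.2.1 b e).2.mono fun j y => y.1)).mono fun j y =>
        z ⟨f.prod (finite_singleton _), fun _ r => l r.1⟩ (mc (fun v w => ?_) y.1)
  rcases ss w with ⟨d, e, w⟩ | w
  · exact y.2 d e.1 y.1 w
  exact absurd (w.2.symm.trans w.1.2) (by simp)

theorem fin {y : Dt} (q : Pr g δ y) (S : Set ℕ) : ∃ x, P g δ x ∧ x.G ⊆ y.G ∧ x.T ⊆ y.T ∧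
    (x.G ⊆ S ∨ x.G ⊆ Sᶜ) ∧ (x.T ⊆ S ∨ x.T ⊆ Sᶜ) ∧
      ∀ j, ∃ F, FF (Iio δ) F ∧ ∀ z ∈ x.s j, z.1 < δ → z ∈ y.s j ∪ Sg g j F := by
  obtain ⟨⟨q1, q2, q3, T1, T2, T3⟩, q4⟩ := q
  obtain ⟨e, he⟩ := (((cI δ).mono Iio_subset_Iic_self).insert δ).exists_eq_range (insert_nonempty _ _)
  obtain ⟨φ, φ1, φ2⟩ := extraction_forall_of_frequently fun n =>
    q4 (e '' Iic n ∩ Iio δ) inter_subset_right (((finite_Iic n).image e).inter_of_left _)
  have : ∀ n, ∃ (F : Set (I × Bool)) (b : Bool), FF (Iio δ) F ∧ (e '' Iic n ∩ Iio δ) ×ˢ {true} ⊆ F ∧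
      Con (y.s (φ n) ∪ Sg g (φ n) F) ∧ ∀ E, FF (Iio δ) E → Con (y.s (φ n) ∪ Sg g (φ n) (F ∪ E)) →
        (Cb g (φ n) (F ∪ E) ∩ y.G ∩ cond b S Sᶜ).Infinite := fun n => by
    have f : FF (Iio δ) ((e '' Iic n ∩ Iio δ) ×ˢ {true}) := ⟨(((finite_Iic n).image e).inter_of_left
      _).prod (finite_singleton _), fun _ r => r.1.2⟩
    by_cases k : ∀ E, FF (Iio δ) E → Con (y.s (φ n) ∪ Sg g (φ n) ((e '' Iic n ∩ Iio δ) ×ˢ {true} ∪ E))
      → (Cb g (φ n) ((e '' Iic n ∩ Iio δ) ×ˢ {true} ∪ E) ∩ y.G ∩ S).Infinite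
    · exact ⟨_, true, f, Subset.rfl, φ2 n, k⟩
    push Not at k
    obtain ⟨E, r, t, w⟩ := k
    exact ⟨_, false, fu f r, subset_union_left, t, fun H v z => (((q3 _ (fu (fu f r) v) _ z).sdiff
      w).mono fun m u => ⟨u.1, fun i => u.2 ⟨⟨(cu.le u.1.1).1, u.1.2⟩, i⟩⟩)⟩
  choose F b f1 f2 f3 f4 using this
  obtain ⟨β, hβ⟩ := Finite.exists_infinite_fiber b
  let D := φ '' (b ⁻¹' {β})
  let ψ := invFun φ
  have i : ∀ n, ψ (φ n) = n := leftInverse_invFun φ1.injective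
  let σ (j : ℕ) := y.s j ∪ Sg g j (F (ψ j)) ∪ {u | u = (δ, false) ∧ j ∉ D}
  let Y := {n | p n ∈ D ∧ n ∈ Cb g (p n) (F (ψ (p n))) ∩ y.G ∩ cond β S Sᶜ}
  have d : ∀ {j}, Con (σ j) → j ∈ D := fun k => by_contra fun n =>
    k δ (.inl (.inl (q1 _).1)) (.inr ⟨rfl, n⟩)
  obtain ⟨V, V1, V2, V3⟩ : ∃ V ⊆ y.T, V.Infinite ∧ (V ⊆ S ∨ V ⊆ Sᶜ) :=
    (infinite_union.1 (T1.mono (inter_union_sdiff y.T S).ge)).elim (⟨_, inter_subset_left, ·,
      .inl inter_subset_right⟩) (⟨_, sdiff_subset, ·, .inr fun _ r => r.2⟩)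
  obtain ⟨R, hR⟩ := sp (((((cF δ).prod (countable_univ (α := ℕ × Bool))).image fun z =>
    Cb g z.2.1 z.1 ∩ cond z.2.2 Y Set.univ).union (((cI δ).mono
      Iio_subset_Iic_self).image fun z => (g z).T)).insert V)
  have k : ∀ {a}, a < δ → ∃ i, e i = a := fun l => he.le (.inr l)
  refine ⟨⟨Y ∩ R, V ∩ R, σ⟩, ⟨⟨fun j => ⟨.inl (.inl (q1 j).1), fun u r => ?_⟩, fun j c l =>
    tu (tu (q2 j c l) (g5 s (f1 _))) (t0 fun u r => r.1 ▸ l), fun E f j r => ?_,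
      (hR V (.inl rfl) V2).1, fun j => ((T2 j).union (g6 s (j := j) (f1 (ψ j)) fun u r =>
        T3 _ ((f1 _).2 u r))).subset fun m r => by_contra fun t => r.2 fun b l w => ?_,
          fun b l => (T3 b l).subset fun m r => ⟨V1 r.1.1, r.2⟩⟩, ?_, fun a l => ?_,
          fun E f j r => (hR _ (.inr (.inl ⟨(E, j, false), ⟨f, trivial⟩, rfl⟩)) ((g4 s f r).mono
            fun m t => ⟨t, trivial⟩)).2.mono fun m t => ⟨t.1.1, fun w => t.2 w.2⟩⟩,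
    fun m r => r.1.2.1.2, inter_subset_left.trans V1, ?_,
      V3.imp inter_subset_left.trans inter_subset_left.trans,
      fun j => ⟨_, f1 (ψ j), fun z r l => r.resolve_right fun t => l.ne (t.1 ▸ rfl)⟩⟩
  · rcases r with (r | r) | r
    · exact (q1 j).2 u r
    · exact let ⟨v, t, w⟩ := g3 s (f1 _) u r; w.trans ((f1 _).2 v t).le
    exact r.1 ▸ le_rfl
  · obtain ⟨n, t, rfl⟩ := d (mc subset_union_left r)
    refine (hR _ (.inr (.inl ⟨(E, φ n, true), ⟨f, trivial⟩, rfl⟩)) ((f4 n E f (mc ?_ r)).mono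
      fun m w => ⟨(cu.le w.1.1).2, ?_⟩)).1.mono fun m w => ⟨w.1.1, w.1.2, w.2⟩
    · simp only [σ, i, su]
      exact fun u w => w.elim (fun w => .inl (.inl (.inl w))) (.imp_left fun w => .inl (.inr w))
    simp only [Y, cond_true, mem_ofPred_eq, w.1.1.1, i]
    exact ⟨⟨n, t, rfl⟩, ⟨(cu.le w.1.1).1, w.1.2⟩, (show b n = β from t) ▸ w.2⟩
  · rcases w with (w | w) | w
    · exact by_contra fun v => t (.inl ⟨V1 r.1.1, fun z => v (z b l w)⟩)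
    · exact by_contra fun v => t (.inr ⟨V1 r.1.1, fun z => v (z b w)⟩)
    simp at w
  · refine Nat.frequently_atTop_iff_infinite.2 (((infinite_coe_iff.1 hβ).image
      φ1.injective.injOn).mono ?_)
    rintro _ ⟨n, t, rfl⟩
    refine mc (union_subset ?_ fun u r => (r.2 ⟨n, t, rfl⟩).elim) (f3 n)
    rw [i]
  · refine ⟨(hR _ (.inr (.inr ⟨a, l, rfl⟩)) (s a l).1.2.2.2.1).2.mono fun m r =>
      ⟨r.1, fun t => r.2 t.2⟩, ?_⟩
    obtain ⟨m, rfl⟩ := k l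
    have z : ∀ j ≥ φ m, j ∈ D → (e m, true) ∈ F (ψ j) := by
      rintro _ r ⟨n, -, rfl⟩
      exact (i n).symm ▸ f2 n ⟨⟨⟨m, φ1.le_iff_le.1 r, rfl⟩, l⟩, rfl⟩
    filter_upwards [eventually_ge_atTop (φ m)] with j r
    exact ⟨fun t u w => .inl (.inr (st (z j r (d t)) w)), finite_empty.subset fun n w => w.2
      ((w.1.1.1.2.1.1.2 _ (z _ (w.1.2 ▸ r) w.1.1.1.1)).2 rfl)⟩
  cases β
  · exact .inr fun m r => r.1.2.2
  exact .inl fun m r => r.1.2.2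

end

end Pool.Agent.H.MP_8dd142_lc
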