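import Mathlib
import Pool.Agent.H.MP_8dd142_lc.A

set_option autoImplicit false

namespace Pool.Agent.H.MP_8dd142_lc

open Set Filter Function Cardinal Pool.Agent.H.MP_77d395_lc Pool.Agent.H.MP_6e75db_lc
open Pool.Agent.H.MP_522602_lc (p fb)
open Pool.Agent.H.MP_2e4b78_lc (Dia)
open Pool.Agent.H.MP_0d317a_lc hiding Cm Pr P cm cr cp g3 g4 t1 g5 td g6 tp fin pf dp ex main

variable {g : I → Dt} {δ : I}

def pf (g : I → Dt) (a : I → I) (B : I → Set ℕ) (c i : I) (n m : ℕ) :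
    Set (I × Bool) × Prop × Prop × Prop := ((g (a i)).s n ∩ {x | x.1 ≤ c}, n ∈ (g (a i)).G ∩ B i,
      Gd g a B n i, ∀ b, c < b → (b, true) ∈ (g (a i)).s n → m ∈ (g b).T)

theorem dp (s : ∀ b, P g b (g b)) {a : I → I} {B : I → Set ℕ} {i : I} (a1 : ∀ i, i ≤ a i)
    (a2 : ∀ i, ∀ᶠ j in atTop, (fb (g (a i)).G j \ B i).Finite) (d1 : o < δ) (d2 : δ < i)
    (d3 : ∀ j, ∃ c < δ, ∀ y ∈ (g (a i)).s j, y.1 < δ → y.1 ≤ c)
    (d4 : ∀ c < δ, ∀ N, ∃ l, c < l ∧ a l < δ ∧ ∀ n < N, ∀ m < N, pf g a B c l n m = pf g a B c i n m) :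
    ∃ y, Pr g δ y ∧ ∃ J ⊆ Iio δ, J.Infinite ∧ ∀ l ∈ J, y.G ⊆ B l := by
  obtain ⟨ε, e1⟩ := bd (countable_singleton (a i))
  replace e1 := e1 _ rfl
  have e2 := d2.trans_le (a1 i)
  have s' : ∀ b < ε, P g b (g b) := fun b _ => s b
  choose ρ r1 r2 using d3
  obtain ⟨t, ht⟩ := ((cF δ).prod (((cI δ).mono Iio_subset_Iic_self).prod
    (countable_univ (α := ℕ × ℕ)))).exists_eq_range ⟨(∅, o, 0, 0), ⟨finite_empty, by simp⟩, d1, trivial⟩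
  obtain ⟨f, hf⟩ := MP_0d317a_lc.sq (o, o, 0) (Q := fun z : I × I × ℕ => z.2.1 < z.1 ∧ a z.1 < δ ∧ z.2.1 < δ ∧
    (∀ j < z.2.2, ρ j ≤ z.2.1) ∧ ∀ n < z.2.2, ∀ m < z.2.2, pf g a B z.2.1 z.1 n m = pf g a B z.2.1 i n m)
    (R := fun k K z => (∀ w ∈ K, a w.1 ≤ z.2.1 ∧ w.2.1 ≤ z.2.1 ∧ w.2.2 ≤ z.2.2) ∧
      (t k).2.1 ≤ z.2.1 ∧ (t k).2.2.1 ≤ z.2.2 ∧ (∃ l < z.2.2, (t k).2.2.1 ≤ l ∧
        (∀ b, (b, true) ∈ (t k).1 → (g b).s l ⊆ (g (a i)).s l) ∧ ∀ q ∈ insert i (Prod.fst '' K),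
          (g (a q)).s l ⊆ (g (a i)).s l ∧ Gd g a B l q) ∧
      (∃ x < z.2.2, (t k).2.2.1 ≤ x ∧ (MP_0d317a_lc.Con (Sg g (t k).2.2.2 ((t k).1 ∪
        (a '' insert i (Prod.fst '' K)) ×ˢ {true})) → (∀ q ∈ insert i (Prod.fst '' K),
          Gd g a B (t k).2.2.2 q) → x ∈ Cb g (t k).2.2.2 (t k).1 ∧
            ∀ q ∈ insert i (Prod.fst '' K), x ∈ (g (a q)).G ∩ B q)) ∧
      ∃ m < z.2.2, (t k).2.2.1 ≤ m ∧ m ∈ (g (t k).2.1).T ∧ ∀ j < (t k).2.2.1, ∀ b,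
        (b, true) ∈ Sg g j ((t k).1 ∪ (a '' insert i (Prod.fst '' K)) ×ˢ {true}) → m ∈ (g b).T)
      fun k K k1 k2 => by
      obtain ⟨t1, t2, -⟩ := ht.ge ⟨k, rfl⟩
      generalize t k = z at *
      obtain ⟨F, c, n, j⟩ := z
      have k3 := (k1.image Prod.fst).insert i
      have k4 : FF (Iio ε) (F ∪ (a '' insert i (Prod.fst '' K)) ×ˢ {true}) := fu ⟨t1.1, fun u r =>
        (t1.2 u r).trans (e2.trans e1)⟩ ⟨(k3.image a).prod (finite_singleton _), by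
          rintro ⟨_, _⟩ ⟨⟨_, rfl | ⟨w, r, rfl⟩, rfl⟩, -⟩
          exacts [e1, (k2 w r).2.1.trans (e2.trans e1)]⟩
      have v : ∀ b < δ, ∀ᶠ l in atTop, MP_0d317a_lc.Con ((g (a i)).s l) → (g b).s l ⊆ (g (a i)).s l :=
        fun b r => ((s _).2.2.1 b (r.trans e2)).2.mono fun l w => w.1
      obtain ⟨l, l1, l2, l3, l4, l5⟩ := ((s (a i)).2.1.and_eventually ((eventually_ge_atTop n).and
        (((eventually_all_finite t1.1).2 fun u r => v _ (t1.2 u r)).and (((eventually_all_finite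
          k1).2 fun w r => v _ (k2 w r).2.1).and ((eventually_all_finite k3).2
            fun q _ => a2 q))))).exists
      obtain ⟨x, x1, x2⟩ : ∃ x, n ≤ x ∧ (MP_0d317a_lc.Con (Sg g j (F ∪ (a '' insert i (Prod.fst '' K)) ×ˢ {true}))
          → (∀ q ∈ insert i (Prod.fst '' K), Gd g a B j q) → x ∈ Cb g j F ∧
            ∀ q ∈ insert i (Prod.fst '' K), x ∈ (g (a q)).G ∩ B q) := by
        by_contra! w
        obtain ⟨w1, w2, -⟩ := w n le_rfl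
        obtain ⟨x, x1, x2⟩ := ((g4 s' k4 w1).sdiff (k3.biUnion fun q r => (w2 q r).2)).exists_gt n
        obtain ⟨q, q1, q2⟩ := (w x x2.le).2.2 (cu.le x1.1).1
        have := (x1.1.2 (a q, true) (.inr ⟨⟨q, q1, rfl⟩, rfl⟩)).2 rfl
        exact x1.2 (mem_biUnion q1 ⟨⟨this, x1.1.1⟩, fun r => q2 ⟨this, r⟩⟩)
      obtain ⟨m, m1, m2⟩ := ((s (a i)).1.2.2.2.1.sdiff ((td s' (t2.trans e2).le e1).union
        ((finite_lt_nat n).biUnion fun j _ => g6 s' (j := j) k4 fun u r => td s' (by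
          rcases r with r | ⟨⟨_, rfl | ⟨w, r, rfl⟩, e⟩, -⟩
          exacts [((t1.2 u r).trans e2).le, e.ge, e ▸ ((k2 w r).2.1.trans e2).le]) e1))).exists_gt n
      obtain ⟨N, hN⟩ := ((((k1.image fun w => w.2.2).insert l).insert x).insert m).bddAbove
      obtain ⟨γ, c1, c2, c3⟩ := ub (((k1.image fun w => a w.1).union (k1.image fun w => w.2.1)).union
        ((finite_lt_nat (N + 1)).image ρ)) (union_subset (union_subset (image_subset_iff.2 fun w r =>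
          (k2 w r).2.1) (image_subset_iff.2 fun w r => (k2 w r).2.2.1))
            (image_subset_iff.2 fun j _ => r1 j)) t2
      obtain ⟨q, q1, q2, q3⟩ := d4 γ c1 (N + 1)
      have u : ∀ q ∈ insert i (Prod.fst '' K), (g (a q)).s l ⊆ (g (a i)).s l := by
        rintro _ (rfl | ⟨w, r, rfl⟩)
        exacts [Subset.rfl, l4 w r l1]
      exact ⟨(q, γ, N + 1), ⟨q1, q2, c1, fun j r => c3 _ (.inr ⟨j, r, rfl⟩), q3⟩, fun w r =>
        ⟨c3 _ (.inl (.inl ⟨w, r, rfl⟩)), c3 _ (.inl (.inr ⟨w, r, rfl⟩)),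
          (hN (.inr (.inr (.inr ⟨w, r, rfl⟩)))).trans N.le_succ⟩, c2,
        m2.le.trans ((hN (.inl rfl)).trans N.le_succ), ⟨l, Nat.lt_succ_of_le (hN (by simp)), l2,
          fun b r => l3 _ r l1, fun q r => ⟨u q r, mc (u q r) l1, l5 q r⟩⟩,
        ⟨x, Nat.lt_succ_of_le (hN (by simp)), x1, x2⟩, m, Nat.lt_succ_of_le (hN (by simp)), m2.le, by_contra fun r => m1.2 (.inl ⟨m1.1, r⟩),
          fun j r => by_contra fun w => m1.2 (.inr (mem_biUnion r ⟨m1.1, w⟩))⟩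
  have mo : ∀ {k l}, k ≤ l → (f k).2.1 ≤ (f l).2.1 ∧ (f k).2.2 ≤ (f l).2.2 := fun {k l} r =>
    r.eq_or_lt.elim (fun e => e ▸ ⟨le_rfl, le_rfl⟩) fun r => ((hf l).2.1 _ ⟨k, r, rfl⟩).2
  have ag : ∀ {k l n m}, k ≤ l → n < (f k).2.2 → m < (f k).2.2 →
      pf g a B (f l).2.1 (f l).1 n m = pf g a B (f l).2.1 i n m := fun r u v =>
    (hf _).1.2.2.2.2 _ (u.trans_le (mo r).2) _ (v.trans_le (mo r).2)
  let J := insert i (range fun k => (f k).1)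
  have al : ∀ {k q}, q ∈ J → q ∈ insert i (Prod.fst '' (f '' Iio k)) ∨ ∃ l, k ≤ l ∧ (f l).1 = q := by
    rintro k _ (rfl | ⟨l, rfl⟩)
    · exact .inl (.inl rfl)
    exact (lt_or_ge l k).imp (fun r => .inr ⟨_, ⟨l, r, rfl⟩, rfl⟩) fun r => ⟨l, r, rfl⟩
  have la : ∀ {k q}, q ∈ insert i (Prod.fst '' (f '' Iio k)) → q ∈ J := by
    rintro k _ (rfl | ⟨_, ⟨l, -, rfl⟩, rfl⟩)
    exacts [.inl rfl, .inr ⟨l, rfl⟩]
  have tk : ∀ F, FF (Iio δ) F → ∀ c < δ, ∀ n j, ∃ k, t k = (F, c, n, j) :=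
    fun F r c w n j => ht.le ⟨r, w, trivial⟩
  have tr : ∀ {k l n y}, k ≤ l → n < (f k).2.2 → y ∈ (g (a (f l).1)).s n → y.1 ≤ (f l).2.1 →
      y ∈ (g (a i)).s n := fun r u v w => ((congrArg Prod.fst (ag r u u)).le ⟨v, w⟩).1
  have s3 := fun b j => ((s b).1.1 j).2
  obtain ⟨T, hT⟩ := mT (fun b (_ : b < δ) => s b) (π := fun j => {(δ, true)} ∪ {u | u.1 < δ ∧ ∃ q ∈ J,
    u ∈ (g (a q)).s j} ∪ {u | u = (δ, false) ∧ ¬ ∀ q ∈ J, Gd g a B j q}) fun c w n =>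
      infinite_of_forall_exists_gt fun M => by
    obtain ⟨k, e⟩ := tk ∅ ⟨finite_empty, by simp⟩ c w (max n (M + 1)) 0
    obtain ⟨-, -, h2, -, -, m, m1, m2, m3, m4⟩ := (hf k).2
    rw [e] at h2 m2 m3 m4
    refine ⟨m, ⟨m3, fun j j1 b v y => ?_⟩, (le_max_right _ _).trans m2⟩
    replace j1 := j1.trans_le (le_max_left n (M + 1))
    have z : ∀ b, ∀ q ∈ insert i (Prod.fst '' (f '' Iio k)), (b, true) ∈ (g (a q)).s j →
        m ∈ (g b).T := fun b q q1 y => m4 j j1 b (st (.inr ⟨⟨q, q1, rfl⟩, rfl⟩) y)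
    rcases y with (y | ⟨-, q, q1, y⟩) | y
    · exact (v.ne (Prod.mk.inj y).1).elim
    · rcases al (k := k) q1 with q2 | ⟨l, q2, rfl⟩
      · exact z b q q2 y
      rcases le_or_gt b (f l).2.1 with u | u
      · exact z b i (.inl rfl) (tr q2 (j1.trans_le h2) y u)
      exact (congrArg (·.2.2.2) (ag q2 (j1.trans_le h2) m1)).mpr (fun b _ => z b i (.inl rfl)) b u y
    simp at y
  refine ⟨⟨⋂ q ∈ J, (g (a q)).G ∩ B q, T, fun j => {(δ, true)} ∪ {u | u.1 < δ ∧ ∃ q ∈ J,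
    u ∈ (g (a q)).s j} ∪ {u | u = (δ, false) ∧ ¬ ∀ q ∈ J, Gd g a B j q}⟩, ⟨⟨fun j => ⟨.inl (.inl rfl),
      ?_⟩, fun j c r => ?_, fun F r j w => infinite_of_forall_exists_gt fun n => ?_, hT⟩, fun u r w =>
          frequently_atTop.2 fun n => ?_⟩, range fun k => (f k).1, range_subset_iff.2 fun k =>
            (a1 _).trans_lt (hf k).1.2.1, infinite_range_of_injective (StrictMono.injective
              fun k l r => ((a1 _).trans ((hf l).2.1 _ ⟨k, r, rfl⟩).1).trans_lt (hf l).1.1),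
                fun l r => (biInter_subset_of_mem (.inr r)).trans inter_subset_right⟩
  · rintro _ ((rfl | r) | ⟨rfl, -⟩)
    exacts [le_rfl, r.1.le, le_rfl]
  · obtain ⟨k, e⟩ := tk ∅ ⟨finite_empty, by simp⟩ c r (j + 1) 0
    obtain ⟨-, h1, h2, -⟩ := (hf k).2
    rw [e] at h1 h2
    obtain ⟨F, f1, f2⟩ := tb (c := c) (j := j) ((((finite_Iio k).image f).image Prod.fst).insert i)
      fun q v => MP_8dd142_lc.t1 s' (show a q < ε by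
        rcases v with rfl | ⟨_, ⟨l, -, rfl⟩, rfl⟩
        exacts [e1, (hf l).1.2.1.trans (e2.trans e1)])
    refine ⟨F, f1, f2 ▸ Subset.antisymm ?_ fun y v => let ⟨q, q1, q2⟩ := mem_iUnion₂.1 v.1
      ⟨.inl (.inr ⟨v.2.trans_lt r, q, la q1, q2⟩), v.2⟩⟩
    rintro y ⟨(rfl | ⟨-, q, q1, q2⟩) | ⟨rfl, -⟩, v⟩
    · exact (r.not_ge v).elim
    · rcases al (k := k) q1 with q3 | ⟨l, q3, rfl⟩
      · exact ⟨mem_biUnion q3 q2, v⟩
      exact ⟨mem_biUnion (.inl rfl) (tr q3 h2 q2 (v.trans (h1.trans (mo q3).1))), v⟩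
    exact (r.not_ge v).elim
  · obtain ⟨k, e⟩ := tk F r o d1 (n + 1) j
    obtain ⟨-, -, -, -, ⟨x, x1, x2, x3⟩, -⟩ := (hf k).2
    rw [e] at x2 x3
    have z : ∀ q ∈ J, Gd g a B j q := by_contra fun v => w δ (.inl (.inl (.inl rfl))) (.inl (.inr ⟨rfl, v⟩))
    have y : ∀ u ∈ Sg g j (F ∪ (a '' insert i (Prod.fst '' (f '' Iio k))) ×ˢ {true}),
        (u.1 < δ → u ∈ {u | u.1 < δ ∧ ∃ q ∈ J, u ∈ (g (a q)).s j} ∪ Sg g j F) ∧
          (δ ≤ u.1 → u ∈ (g (a i)).s j) := fun u v => by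
      rcases su.le v with v | v
      · exact ⟨fun _ => .inr v, fun y => let ⟨b, b1, b2⟩ := g3 (fun b _ => s b) r u v
          ((r.2 b b1).not_ge (y.trans b2)).elim⟩
      rcases ss v with ⟨_, ⟨⟨q, q1, rfl⟩, -⟩, v1⟩ | v1
      · refine ⟨fun y => .inl ⟨y, q, la q1, v1⟩, fun y => ?_⟩
        rcases q1 with rfl | ⟨_, ⟨l, -, rfl⟩, rfl⟩
        · exact v1
        exact ((hf l).1.2.1.not_ge (y.trans (s3 _ _ u v1))).elim
      exact absurd (v1.2.symm.trans v1.1.2) (by simp)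
    obtain ⟨x4, x5⟩ := x3 (fun b u v => (lt_or_ge b δ).elim (fun l => w b (((y _ u).1 l).imp_left
      fun r => .inl (.inr r)) (((y _ v).1 l).imp_left fun r => .inl (.inr r))) fun l =>
        (z i (.inl rfl)).1 b ((y _ u).2 l) ((y _ v).2 l)) fun q v => z q (la v)
    refine ⟨x, ⟨x4, mem_iInter₂.2 fun q v => (al (k := k) v).elim (x5 q) ?_⟩, x2⟩
    rintro ⟨l, v1, rfl⟩
    exact (congrArg (·.2.1) (ag v1 x1 x1)).mpr (x5 i (.inl rfl))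
  have r' : FF (Iio δ) (u ×ˢ {true}) := ⟨w.prod (finite_singleton _), fun _ v => r v.1⟩
  obtain ⟨k, e⟩ := tk _ r' o d1 n 0
  obtain ⟨-, -, -, ⟨l, l1, l2, l3, l4⟩, -⟩ := (hf k).2
  rw [e] at l2 l3
  have z : ∀ q ∈ J, Gd g a B l q := fun q v => (al (k := k) v).elim (fun v => (l4 q v).2) <| by
    rintro ⟨m, v1, rfl⟩
    exact (congrArg (·.2.2.1) (ag v1 l1 l1)).mpr (l4 i (.inl rfl)).2
  have y : ∀ y ∈ {(δ, true)} ∪ {u | u.1 < δ ∧ ∃ q ∈ J, u ∈ (g (a q)).s l} ∪ {u | u = (δ, false) ∧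
      ¬ ∀ q ∈ J, Gd g a B l q} ∪ Sg g l (u ×ˢ {true}), y = (δ, true) ∨ y.1 < δ ∧ (y ∈ (g (a i)).s l ∨
        ∃ m, k ≤ m ∧ y ∈ (g (a (f m).1)).s l ∧ (f m).2.1 < y.1) := by
    rintro y (((v | ⟨v, q, q1, q2⟩) | v) | v)
    · exact .inl v
    · refine .inr ⟨v, ?_⟩
      rcases al (k := k) q1 with q3 | ⟨m, q3, rfl⟩
      · exact .inl ((l4 q q3).1 q2)
      exact (le_or_gt y.1 (f m).2.1).imp (tr q3 l1 q2) fun v => ⟨m, q3, q2, v⟩
    · exact (v.2 z).elim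
    obtain ⟨b, b1, b2⟩ := g3 (fun b _ => s b) r' y v
    refine .inr ⟨b2.trans_lt (r'.2 b b1), .inl ?_⟩
    rcases ss v with ⟨b, b1, v⟩ | v
    · exact l3 b b1 v
    exact absurd (v.2.symm.trans v.1.2) (by simp)
  have x : ∀ {b β m}, b < δ → k ≤ m → (b, β) ∈ (g (a i)).s l → ¬ (f m).2.1 < b := fun u v w =>
    ((r2 l _ w u).trans ((hf _).1.2.2.2.1 l (l1.trans_le (mo v).2))).not_gt
  refine ⟨l, l2, fun b u v => ?_⟩
  obtain ⟨h1, v⟩ := (y _ v).resolve_left (by simp)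
  obtain ⟨-, u⟩ := (y _ u).resolve_left fun e => h1.ne (Prod.mk.inj e).1
  rcases u with u | ⟨m, m1, m2, m3⟩ <;> rcases v with v | ⟨m', n1, n2, n3⟩
  · exact (z i (.inl rfl)).1 b u v
  · exact x h1 n1 u n3
  · exact x h1 m1 v m3
  rcases lt_trichotomy m m' with c | rfl | c
  · exact n3.not_ge ((s3 _ _ _ m2).trans ((hf m').2.1 _ ⟨m, c, rfl⟩).1)
  · exact (z _ (.inr ⟨m, rfl⟩)).1 b m2 n2
  exact m3.not_ge ((s3 _ _ _ n2).trans ((hf m).2.1 _ ⟨m', c, rfl⟩).1)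

def Hh (S X : Set ℕ) : Set ℕ := {m | ∃ s : Finset ℕ, ↑s ⊆ X ∧ Encodable.encode (s, m) ∈ S}

theorem hm {S X Y : Set ℕ} (h : X ⊆ Y) : Hh S X ⊆ Hh S Y := fun _ ⟨s, t, u⟩ => ⟨s, t.trans h, u⟩

theorem ex (hd : Dia) : ∃ (V W : Ultrafilter ℕ) (f : Set ℕ → Set ℕ),
    (∀ B : I → Set ℕ, (∀ i, B i ∈ V) → ∃ J : Set I, J.Infinite ∧ (⋂ i ∈ J, B i) ∈ V) ∧
    (∀ n, {n} ∉ V) ∧ (∀ n, {n} ∉ W) ∧ (∀ X ∈ V, f X ∈ W) ∧ Monotone f ∧
    (∀ Z ∈ W, ∃ X ∈ V, f X ⊆ Z) ∧ ∀ S, ∃ Y ∈ V, ∀ X ∈ V, X ⊆ Y → f X ≠ Hh S X := by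
  obtain ⟨D, hD⟩ := dg hd
  obtain ⟨g, hg⟩ := MP_bbbdfa_lc.rc (⟨∅, ∅, fun _ => ∅⟩ : Dt) (P := fun a g x =>
    (∀ b < a, P g b (g b)) → P g a x ∧ (x.G ⊆ D a o ∨ x.G ⊆ (D a o)ᶜ) ∧
      (x.T ⊆ D a o ∨ x.T ⊆ (D a o)ᶜ) ∧ (∀ c < a, (∀ b < a, b ≤ c) → Disjoint (Hh (D c o) x.G) x.T ∨
        ¬ ∃ y, Pr g a y ∧ Disjoint (Hh (D c o) y.G) y.T) ∧ ((∀ c < a, ∃ b < a, c < b) →
          (∃ J ⊆ Iio a, J.Infinite ∧ ∀ l ∈ J, x.G ⊆ D a l) ∨
        (∀ j, ∃ u ⊆ Iio a, u.Finite ∧ ∀ y ∈ x.s j, y.1 < a → ∃ b ∈ u, y.1 ≤ b) ∧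
          ¬ ∃ y, Pr g a y ∧ ∃ J ⊆ Iio a, J.Infinite ∧ ∀ l ∈ J, y.G ⊆ D a l)) fun a g => by
      by_cases s : ∀ b < a, P g b (g b)
      swap
      · exact ⟨⟨∅, ∅, fun _ => ∅⟩, fun r => (s r).elim⟩
      obtain ⟨T, q⟩ := tp s
      by_cases l : ∃ c < a, ∀ b < a, b ≤ c
      · obtain ⟨c, c1, c2⟩ := l
        have e : ∀ d < a, (∀ b < a, b ≤ d) → d = c := fun d v w => (c2 d v).antisymm (w c c1)
        have n : ∀ {x : Prop}, (∀ c < a, ∃ b < a, c < b) → x := fun r =>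
          let ⟨b, v, w⟩ := r c c1; (w.not_ge (c2 b v)).elim
        by_cases k : ∃ y, Pr g a y ∧ Disjoint (Hh (D c o) y.G) y.T
        · obtain ⟨y, q, k⟩ := k
          exact (fin s q (D a o)).imp fun x r _ => ⟨r.1, r.2.2.2.1, r.2.2.2.2.1, fun d v w =>
            .inl (e d v w ▸ k.mono (hm r.2.1) r.2.2.1), n⟩
        exact (fin s q (D a o)).imp fun x r _ => ⟨r.1, r.2.2.2.1, r.2.2.2.2.1, fun d v w =>
          .inr (e d v w ▸ k), n⟩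
      by_cases k : ∃ y, Pr g a y ∧ ∃ J ⊆ Iio a, J.Infinite ∧ ∀ l ∈ J, y.G ⊆ D a l
      · obtain ⟨y, q, J, j1, j2, j3⟩ := k
        exact (fin s q (D a o)).imp fun x r _ => ⟨r.1, r.2.2.2.1, r.2.2.2.2.1, fun c v w =>
          (l ⟨c, v, w⟩).elim, fun _ => .inl ⟨J, j1, j2, fun l t => r.2.1.trans (j3 l t)⟩⟩
      exact (fin s q (D a o)).imp fun x r _ => ⟨r.1, r.2.2.2.1, r.2.2.2.2.1, fun c v w =>
        (l ⟨c, v, w⟩).elim, fun _ => .inr ⟨fun j =>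
        let ⟨F, f, t⟩ := r.2.2.2.2.2 j; ⟨_, image_subset_iff.2 f.2, f.1.image Prod.fst, fun y v l =>
          let ⟨u, w, z⟩ := g3 s f y ((t y v l).resolve_left fun e => l.ne (e ▸ rfl))
          ⟨_, ⟨u, w, rfl⟩, z⟩⟩, k⟩⟩
  have k : ∀ a, (∀ b < a, P g b (g b)) → ∀ b < a, P (fun b => if b < a then g b else
      ⟨∅, ∅, fun _ => ∅⟩) b (if b < a then g b else ⟨∅, ∅, fun _ => ∅⟩) := fun a ih b l => by
    rw [if_pos l]
    exact cp (fun c r => (if_pos (r.trans l)).symm) (ih b l)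
  have s : ∀ a, P g a (g a) := fun a => wellFounded_lt.induction (C := fun a => P g a (g a)) a
    fun a ih => cp (fun b l => if_pos l) (hg a (k a ih)).1
  replace hg := fun a => (hg a (k a fun b _ => s b)).2
  have d : ∀ S, ∃ a, D a o = S := fun S =>
    (hD (fun _ => S) (fun _ => ∅) fun _ => countable_empty).imp fun a r => r.2.2 o r.1
  have z : ∀ {F j}, F.Finite → MP_0d317a_lc.Con (Sg g j F) → (Cb g j F).Infinite := fun {F j} f =>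
    let ⟨b, l⟩ := bd (f.image Prod.fst).countable
    g4 (δ := b) (fun b _ => s b) ⟨f, fun u r => l _ ⟨u, r, rfl⟩⟩
  have mV : ∀ {a A}, A ∈ (atTop.bind fun j => cofinite ⊓ 𝓟 (fb (g a).G j)) ↔
      ∀ᶠ j in atTop, (fb (g a).G j \ A).Finite := by simp only [mem_bind', mi]; rfl
  obtain ⟨V, hV⟩ := ua (fun a => atTop.bind fun j => cofinite ⊓ 𝓟 (fb (g a).G j))
    (fun b a l => l.eq_or_lt.elim (· ▸ le_rfl) fun l A r => mV.2 (((mV.1 r).and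
      ((s a).2.2.1 b l).2).mono fun j t => (t.1.union t.2.2).subset fun n w =>
        (em (n ∈ (g b).G)).imp (fun y => ⟨⟨y, w.1.2⟩, w.2⟩) fun y => ⟨w.1, y⟩))
    (fun a => ⟨fun r => let ⟨j, t, w⟩ := ((s a).2.1.and_eventually (mV.1 (empty_mem_iff_bot.2 r))).exists
      z (F := {(a, true)}) (finite_singleton _) (by simpa [Sg] using t)
        (w.subset fun n y => ⟨⟨(y.2 _ rfl).2 rfl, y.1⟩, id⟩)⟩)
    fun S => (d S).imp fun a (e : D a o = S) => e ▸ (hg a).1.imp (fun r => mV.2 (.of_forall fun j =>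
      finite_empty.subset fun n t => t.2 (r t.1.1))) fun r => mV.2 (.of_forall fun j =>
        finite_empty.subset fun n t => t.2 (r t.1.1))
  have t : ∀ {a b}, b ≤ a → ((g a).T \ (g b).T).Finite := fun {a b} l =>
    let ⟨c, r⟩ := bd (countable_singleton a); td (δ := c) (fun b _ => s b) l (r a rfl)
  obtain ⟨W, hW⟩ := ua (fun a => cofinite ⊓ 𝓟 (g a).T) (fun b a l A r => mi.2 (ft (t l) (mi.1 r)))
    (fun a => ⟨fun r => (s a).1.2.2.2.1 (by simpa using mi.1 (empty_mem_iff_bot.2 r))⟩)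
    fun S => (d S).imp fun a (e : D a o = S) => e ▸ (hg a).2.1.imp (fun r => mi.2 (finite_empty.subset
      fun n t => t.2 (r t.1))) fun r => mi.2 (finite_empty.subset fun n t => t.2 (r t.1))
  simp only [mV, mi] at hV hW
  have v : ∀ {A b}, A ∈ V → ∃ a, b ≤ a ∧ ∀ᶠ j in atTop, (fb (g a).G j \ A).Finite := fun {A b} r => by
    obtain ⟨a, r⟩ := (hV A).1 r
    rcases le_or_gt b a with l | l
    · exact ⟨a, l, r⟩
    exact ⟨b, le_rfl, (r.and ((s b).2.2.1 a l).2).mono fun j t => (t.1.union t.2.2).subset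
      fun n w => (em (n ∈ (g a).G)).imp (fun y => ⟨⟨y, w.1.2⟩, w.2⟩) fun y => ⟨w.1, y⟩⟩
  have gv : ∀ a, (g a).G ∈ V := fun a => (hV _).2 ⟨a, .of_forall fun j =>
    finite_empty.subset fun n t => t.2 t.1.1⟩
  have tw : ∀ a, (g a).T ∈ W := fun a => (hW _).2 ⟨a, by simp⟩
  have fw : ∀ X ∈ V, {m | ∀ b, X ⊆ (g b).G → m ∈ (g b).T} ∈ W := fun X r => by
    obtain ⟨a, r⟩ := (hV X).1 r
    obtain ⟨j, j1, j2⟩ := ((s a).2.1.and_eventually r).exists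
    refine (hW _).2 ⟨a, ((s a).1.2.2.2.2.1 j).subset fun m w => ⟨w.1, fun y => w.2 fun b u => ?_⟩⟩
    have x : (b, true) ∈ (g a).s j := by_contra fun x => z (F := {(a, true), (b, false)}) (j := j)
      (toFinite _) (fun c e f => by
        simp [Sg] at e f
        exact f.elim (fun f => x (f ▸ e)) (j1 c e)) (j2.subset fun q e => ⟨⟨(e.2 _ (.inl rfl)).2 rfl,
          e.1⟩, fun f => by simpa using (e.2 _ (.inr rfl)).1 (u f)⟩)
    exact (((s a).1.1 j).2 _ x).eq_or_lt.elim (fun e : b = a => e ▸ w.1) (y b · x)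
  refine ⟨V, W, fun X => {m | ∀ b, X ⊆ (g b).G → m ∈ (g b).T}, fun B r => ?_,
    fun n => Ultrafilter.compl_mem_iff_notMem.1
      ((hV _).2 ⟨o, .of_forall fun j => (finite_singleton n).subset fun m t => not_not.1 t.2⟩),
    fun n => Ultrafilter.compl_mem_iff_notMem.1 ((hW _).2 ⟨o, (finite_singleton n).subset
      fun m t => not_not.1 t.2⟩), fw, fun X Y l m r b u => r b (l.trans u), fun Z r => ?_, fun S => ?_⟩
  · choose a a1 a2 using fun i => v (b := i) (r i)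
    obtain ⟨S, S1, S2⟩ := rf (pf g a B) a fun c => by
      obtain ⟨b, l⟩ := bd (countable_singleton c)
      refine ⟨(⋃ j, Sg g j '' {F | FF (Iio b) F}) ×ˢ Set.univ, (countable_iUnion fun j =>
        (cF b).image _).prod countable_univ, fun i n m => ⟨?_, trivial⟩⟩
      obtain ⟨e, e1⟩ := bd (countable_singleton (a i))
      obtain ⟨F, f1, f2⟩ := MP_8dd142_lc.t1 (δ := e) (j := n) (c := c) (fun b _ => s b) (e1 _ rfl)
      exact mem_iUnion.2 ⟨n, F, ⟨f1.1, fun u r => (f1.2 u r).trans_lt (l c rfl)⟩, f2.symm⟩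
    obtain ⟨δ, d1, d2, d3⟩ := hD B S S1
    obtain ⟨i, l⟩ := bd (countable_singleton δ)
    replace l := l δ rfl
    rcases (hg δ).2.2.2 fun c w => (S2 c 0 i (w.trans l)).imp fun q x =>
      ⟨(a1 q).trans_lt (d2 c w _ x.2.1), x.1⟩ with ⟨J, j1, j2, j3⟩ | ⟨j1, j2⟩
    · exact ⟨J, j2, mem_of_superset (gv δ) (subset_iInter₂ fun l w => d3 l (j1 w) ▸ j3 l w)⟩
    obtain ⟨y, y1, J, y2, y3, y4⟩ := dp s a1 a2 d1 l (fun j => by
      obtain ⟨F, f1, f2⟩ := (s (a i)).1.2.1 j δ (l.trans_le (a1 i))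
      obtain ⟨u, u1, u2, u3⟩ := j1 j
      obtain ⟨c, c1, -, c2⟩ := ub (u2.union ((f1.1.image Prod.fst).inter_of_left (Iio δ)))
        (union_subset u1 inter_subset_right) d1
      refine ⟨c, c1, fun y w x => ?_⟩
      rcases ss (f2.le ⟨w, x.le⟩) with ⟨b, b1, b2⟩ | b1
      · rcases (mem_Iic.1 (f1.2 _ b1)).eq_or_lt with e | e
        · exact let ⟨b, b1, b2⟩ := u3 y (e ▸ b2) x; b2.trans (c2 b (.inl b1))
        exact (((s b).1.1 j).2 y b2).trans (c2 b (.inr ⟨⟨_, b1, rfl⟩, e⟩))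
      exact c2 _ (.inr ⟨⟨y, b1.1, rfl⟩, x⟩)) fun c w N =>
        (S2 c N i (w.trans l)).imp fun q x => ⟨x.1, d2 c w _ x.2.1, x.2.2⟩
    exact (j2 ⟨y, cr (fun b l => (if_pos l).symm) y1, J, y2, y3,
      fun l w => (d3 l (y2 w)).symm ▸ y4 l w⟩).elim
  · obtain ⟨a, rfl⟩ := d Z
    refine ⟨_, gv a, fun m w => ((hg a).2.1.resolve_right fun y => ?_) (w a Subset.rfl)⟩
    exact let ⟨n, u, x⟩ := W.nonempty_of_mem (inter_mem (tw a) r); y u x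
  obtain ⟨c, rfl⟩ := d S
  obtain ⟨δ, d1, d2⟩ := wellFounded_lt.has_min (Ioi c) ((bd (countable_singleton c)).imp
    fun _ r => r c rfl)
  replace d2 : ∀ b < δ, b ≤ c := fun b l => not_lt.1 fun r => d2 b r l
  refine ⟨_, gv δ, fun X r l e => ((hg δ).2.2.1 c d1 d2).elim (fun w => ?_) fun w => w ?_⟩
  · obtain ⟨m, u, x⟩ := W.nonempty_of_mem (inter_mem (fw X r) (tw δ))
    exact let ⟨s, y, u⟩ := e.le u; disjoint_left.1 w ⟨s, y.trans l, u⟩ x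
  obtain ⟨ε, e0⟩ := bd (countable_singleton δ)
  obtain ⟨a, a1, a2⟩ := v (b := ε) r
  replace a1 := (e0 δ rfl).trans_le a1
  obtain ⟨ζ, z1⟩ := bd (countable_singleton a)
  have s' : ∀ b < δ, P g b (g b) := fun b _ => s b
  have tc : ∀ j, ∀ c < δ, Tc g j c ({(δ, true)} ∪ {u ∈ (g a).s j | u.1 < δ} ∪ {u | u = (δ, false) ∧
      ¬ (MP_0d317a_lc.Con ((g a).s j) ∧ (fb (g a).G j \ X).Finite)}) := fun j b l =>
    tu (tu (t0 fun y r => r ▸ l) (let ⟨F, f1, f2⟩ := (s a).1.2.1 j b (l.trans a1)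
      ⟨F, f1, f2 ▸ ext fun y => ⟨fun r => ⟨r.1.1, r.2⟩, fun r => ⟨⟨r.1, r.2.trans_lt l⟩, r.2⟩⟩⟩))
        (t0 fun y r => r.1 ▸ l)
  refine ⟨⟨X, (g c).T \ (g δ).T, fun j => {(δ, true)} ∪ {u ∈ (g a).s j | u.1 < δ} ∪
    {u | u = (δ, false) ∧ ¬ (MP_0d317a_lc.Con ((g a).s j) ∧ (fb (g a).G j \ X).Finite)}⟩,
      cr (fun b l => (if_pos l).symm) ⟨⟨fun j => ⟨.inl (.inl rfl), ?_⟩, tc, fun F f j w => ?_,
        ((s δ).2.2.1 c d1).1, fun j => ?_, fun b l => (t (d2 b l)).subset fun m r => ⟨r.1.1, r.2⟩⟩,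
          fun u u1 u2 => ?_⟩, disjoint_left.2 fun m u x => x.2 (e.ge u δ l)⟩
  · rintro _ ((rfl | r) | ⟨rfl, -⟩)
    exacts [le_rfl, r.2.le, le_rfl]
  · have y := by_contra fun v => w δ (.inl (.inl (.inl rfl))) (.inl (.inr ⟨rfl, v⟩))
    have x : ∀ u ∈ Sg g j (F ∪ {(a, true)}), (u.1 < δ → u ∈ {u ∈ (g a).s j | u.1 < δ} ∪ Sg g j F) ∧
        (δ ≤ u.1 → u ∈ (g a).s j) := fun u v => (su.le v).elim (fun v => ⟨fun _ => .inr v, fun y =>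
          let ⟨b, b1, b2⟩ := g3 s' f u v; ((f.2 b b1).not_ge (y.trans b2)).elim⟩) fun v => by
        replace v : u ∈ (g a).s j := by simpa [Sg] using v
        exact ⟨fun y => .inl ⟨v, y⟩, fun _ => v⟩
    exact ((z (f.1.union (finite_singleton (a, true))) fun b u v => (lt_or_ge b δ).elim (fun l =>
      w b (((x _ u).1 l).imp_left fun r => .inl (.inr r)) (((x _ v).1 l).imp_left fun r =>
        .inl (.inr r))) fun l => y.1 b ((x _ u).2 l) ((x _ v).2 l)).sdiff y.2).mono fun n r =>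
          ⟨(cu.le r.1).1, by_contra fun v => r.2 ⟨⟨(r.1.2 _ (.inr rfl)).2 rfl, r.1.1⟩, v⟩⟩
  · obtain ⟨F, f1, f2⟩ := tc j c d1
    exact (g6 s' (j := j) ⟨f1.1, fun u r => mem_Iio.2 ((mem_Iic.1 (f1.2 u r)).trans_lt d1)⟩ fun u r => t (f1.2 u r)).subset
      fun m r => ⟨r.1.1, fun w => r.2 fun b l x => w b (f2.le ⟨x, d2 b l⟩)⟩
  refine ((s a).2.1.and_eventually (a2.and ((eventually_all_finite u2).2 fun b w =>
    ((s a).2.2.1 b ((u1 w).trans a1)).2))).mono fun j y b p q => ?_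
  have x : ∀ v ∈ {(δ, true)} ∪ {u ∈ (g a).s j | u.1 < δ} ∪ {u | u = (δ, false) ∧ ¬ (MP_0d317a_lc.Con ((g a).s j) ∧
      (fb (g a).G j \ X).Finite)} ∪ Sg g j (u ×ˢ {true}), v = (δ, true) ∨ v.1 < δ ∧ v ∈ (g a).s j := by
    rintro v (((w | w) | w) | w)
    · exact .inl w
    · exact .inr ⟨w.2, w.1⟩
    · exact (w.2 ⟨y.1, y.2.1⟩).elim
    rcases ss w with ⟨b, b1, w⟩ | w
    · exact .inr ⟨(((s b).1.1 j).2 v w).trans_lt (u1 b1.1), (y.2.2 b b1.1).1 y.1 w⟩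
    exact absurd (w.2.symm.trans w.1.2) (by simp)
  obtain ⟨q1, q⟩ := (x _ q).resolve_left (by simp)
  exact y.1 b ((x _ p).resolve_left fun e => q1.ne (Prod.mk.inj e).1).2 q

end Pool.Agent.H.MP_8dd142_lc
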