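import Mathlib
import Pool.Agent.H.MP_8dd142_lc.B

set_option autoImplicit false

namespace Pool.Agent.H.MP_8dd142_lc

open Set Function Cardinal Pool.Agent.H.MP_77d395_lc Pool.Agent.H.MP_6e75db_lc
open Pool.Agent.H.MP_2e4b78_lc (Dia)
open Pool.Agent.H.MP_0d317a_lc (Tk Fc Sup nt dg)

/-- cofinal subsets of an ultrafilter under reverse inclusion -/
def Cof (U : Ultrafilter ℕ) (C : Set (Set ℕ)) : Prop := (∀ X ∈ C, X ∈ U) ∧ ∀ X ∈ U, ∃ Y ∈ C, Y ⊆ X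

/-- finitely generated Tukey reductions -/
def FG (U : Ultrafilter ℕ) : Prop := ∀ (V : Ultrafilter ℕ) (f : Set ℕ → Set ℕ), (∀ X ∈ U, f X ∈ V) →
  (∀ X ∈ U, ∀ Y ∈ U, Y ⊆ X → f Y ⊆ f X) → (∀ C, Cof U C → Cof V (f '' C)) →
    ∃ C, Cof U C ∧ ∃ g : Finset ℕ → Finset ℕ, (∀ s t, s ⊆ t → g s ⊆ g t) ∧
      ∀ X ∈ C, f X = {m | ∃ (k : ℕ) (s : Finset ℕ), ↑s = X ∩ Iio k ∧ m ∈ g s}

theorem main (hd : Dia) : ∃ U : Ultrafilter ℕ, (∀ n, {n} ∉ U) ∧ Tk (Sup U) Fc ∧ ¬ Tk Fc (Sup U) ∧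
    ¬ FG U := by
  classical
  obtain ⟨e⟩ : Nonempty (ℝ ≃ I) := by
    obtain ⟨D, hD⟩ := dg hd
    choose a ha using fun S => (hD (fun _ => S) (fun _ => ∅) fun _ => countable_empty).imp
      fun a r => r.2.2 o r.1
    exact Cardinal.eq.1 (le_antisymm (by simpa [mk_real] using mk_le_of_injective (LeftInverse.injective
      (g := fun a => D a o) ha)) (by simp [mk_real, aleph0_lt_continuum]))
  obtain ⟨i⟩ := (le_def (Set ℕ) ℝ).1 (by simp [mk_real])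
  obtain ⟨U, V, f, h1, h2, -, h3, h4, h5, h6⟩ := ex hd
  refine ⟨U, h2, ⟨fun A => {i A.1}, fun S r ⟨b, w⟩ => ?_⟩, nt e fun B => (h1 _ fun i => (B i).2).imp
    fun J r => ⟨r.1, ⟨⋂ i ∈ J, (B i).1, r.2⟩, fun i t => biInter_subset_of_mem
      (t := fun i => (B i).1) t⟩, fun r => ?_⟩
  · have k : S.Finite := .of_finite_image (b.finite_toSet.subset (image_subset_iff.2 fun A v =>
      Finset.singleton_subset_iff.1 (w _ ⟨A, v, rfl⟩))) (i.injective.comp Subtype.val_injective).injOn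
    exact r ⟨⟨⋂ A ∈ S, A.1, (Filter.biInter_mem k).2 fun A _ => A.2⟩, fun A t =>
      biInter_subset_of_mem (t := fun A : {A // A ∈ U} => A.1) t⟩
  obtain ⟨C, c, g, g1, g2⟩ := r V f h3 (fun _ _ _ _ l => h4 l) fun C c => ⟨forall_mem_image.2
    fun X v => h3 X (c.1 X v), fun Z v => let ⟨X, x, l⟩ := h5 Z v; let ⟨Y, y, w⟩ := c.2 X x
      ⟨_, ⟨Y, y, rfl⟩, (h4 w).trans l⟩⟩
  obtain ⟨Y, y, w⟩ := h6 (Encodable.encode '' {z : Finset ℕ × ℕ | z.2 ∈ g z.1})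
  obtain ⟨X, x, l⟩ := c.2 Y y
  refine w X (c.1 X x) l ((g2 X x).trans (ext fun m => ⟨fun ⟨k, s, u, v⟩ => ⟨s, u.le.trans
    inter_subset_left, _, v, rfl⟩, fun ⟨s, u, v⟩ => ?_⟩))
  obtain ⟨k, t⟩ := s.finite_toSet.bddAbove
  have j := (finite_Iio (k + 1)).inter_of_right X
  exact ⟨k + 1, j.toFinset, j.coe_toFinset, g1 s _ (fun n z => j.mem_toFinset.2
    ⟨u z, Nat.lt_succ_of_le (t z)⟩) (by
      obtain ⟨_, v, e⟩ := v
      obtain rfl := Encodable.encode_injective e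
      exact v)⟩

end Pool.Agent.H.MP_8dd142_lc
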